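import Pool.Agent.Lib.MP_595dad_co.AC.Main

/-!
Problem MP_595dad_co: almost collineations of finite projective planes.

If a bijection `φ` between the points of two finite projective planes of order `q` maps all but
`s ≤ q (√q - 1)` lines to lines, then the planes are isomorphic, by an isomorphism which agrees with
`φ` at all but at most `2 s / q` points.
-/

set_option autoImplicit false

open Configuration Finset

namespace Pool.Agent.Results.MP_595dad_co.AlmostCollineations

open Pool.Agent.Lib.MP595dad.AC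

/-- The number of lines of the plane `(P, L)` whose image under `φ` is not a line of the plane
`(P', L')`. -/
noncomputable def lost {P P' : Type*} (L L' : Type*) [Membership P L] [Membership P' L']
    (φ : P ≃ P') : ℕ :=
  Nat.card {l : L // ∀ l' : L', ¬ ∀ p : P, p ∈ l ↔ φ p ∈ l'}

section

open scoped Classical

variable {P P' L' : Type*} [Membership P' L'] [ProjectivePlane P' L'] [Finite P'] [Finite L']

private noncomputable def fl {P P' L' : Type*} [Membership P' L'] [Fintype P] (φ : P ≃ P')
    (l' : L') : Finset P :=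
  univ.filter fun p => φ p ∈ l'

private lemma mem_fl {P P' L' : Type*} [Membership P' L'] [Fintype P] (φ : P ≃ P') (l' : L')
    (p : P) : p ∈ fl φ l' ↔ φ p ∈ l' := by
  rw [fl, mem_filter]
  exact ⟨fun h => h.2, fun h => ⟨mem_univ _, h⟩⟩

private lemma card_fl [Fintype P] (φ : P ≃ P') (l' : L') :
    #(fl φ l') = ProjectivePlane.order P' L' + 1 := by
  rw [← ProjectivePlane.pointCount_eq P' l', pointCount, ← Nat.card_eq_finsetCard]
  refine Nat.card_congr (φ.subtypeEquiv fun p => ?_)
  exact mem_fl φ l' p

private lemma fl_inj [Fintype P] (φ : P ≃ P') : Function.Injective (fl φ (L' := L')) := by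
  intro l m h
  have h1 : 1 < #(fl φ l) := by
    rw [card_fl]
    have := ProjectivePlane.one_lt_order P' L'
    omega
  obtain ⟨x, hx, y, hy, hne⟩ := one_lt_card.1 h1
  have hx' := hx
  have hy' := hy
  rw [h] at hx' hy'
  rw [mem_fl] at hx hy hx' hy'
  rcases Nondegenerate.eq_or_eq hx hy hx' hy' with h2 | h2
  · exact absurd (φ.injective h2) hne
  · exact h2

private lemma plane [Fintype P] [Fintype L'] (φ : P ≃ P') :
    Pl (univ.image (fl φ (L' := L'))) (ProjectivePlane.order P' L') where
  two := ProjectivePlane.one_lt_order P' L'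
  card := by
    rw [card_image_of_injective _ (fl_inj φ), card_univ, ProjectivePlane.card_lines P' L']
  size := by
    intro m hm
    rw [mem_image] at hm
    obtain ⟨l, -, rfl⟩ := hm
    exact card_fl φ l
  line := by
    intro x y hxy
    have h1 : φ x ≠ φ y := fun h => hxy (φ.injective h)
    obtain ⟨l, ⟨h2, h3⟩, -⟩ := HasLines.existsUnique_line P' L' (φ x) (φ y) h1
    exact ⟨fl φ l, mem_image_of_mem _ (mem_univ l), (mem_fl φ l x).2 h2, (mem_fl φ l y).2 h3⟩
  uniq := by
    intro m hm n hn x y hxy h1 h2 h3 h4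
    rw [mem_image] at hm hn
    obtain ⟨l, -, rfl⟩ := hm
    obtain ⟨l', -, rfl⟩ := hn
    rw [mem_fl] at h1 h2 h3 h4
    rcases Nondegenerate.eq_or_eq h1 h2 h3 h4 with h5 | h5
    · exact absurd (φ.injective h5) hxy
    · rw [h5]
  meet := by
    intro m hm n hn
    rw [mem_image] at hm hn
    obtain ⟨l, -, rfl⟩ := hm
    obtain ⟨l', -, rfl⟩ := hn
    by_cases h : l = l'
    · rw [h]
      have h1 : (fl φ l').Nonempty := by
        rw [← card_pos, card_fl]
        omega
      obtain ⟨x, hx⟩ := h1
      exact ⟨x, hx, hx⟩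
    · obtain ⟨x, ⟨h1, h2⟩, -⟩ := HasPoints.existsUnique_point P' L' l l' h
      refine ⟨φ.symm x, ?_, ?_⟩
      · rw [mem_fl, φ.apply_symm_apply]
        exact h1
      · rw [mem_fl, φ.apply_symm_apply]
        exact h2
  deg := by
    intro x
    have h1 : ({m ∈ univ.image (fl φ (L' := L')) | x ∈ m} : Finset (Finset P)) =
        (({l | φ x ∈ l} : Finset L')).image (fl φ) := by
      ext m
      simp only [mem_filter, mem_image, mem_univ, true_and]
      constructor
      · rintro ⟨⟨l, rfl⟩, h2⟩
        exact ⟨l, (mem_fl φ l x).1 h2, rfl⟩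
      · rintro ⟨l, h2, rfl⟩
        exact ⟨⟨l, rfl⟩, (mem_fl φ l x).2 h2⟩
    rw [h1, card_image_of_injective _ (fl_inj φ), ← ProjectivePlane.lineCount_eq (L := L') (φ x),
      lineCount, ← Fintype.card_subtype, Nat.card_eq_fintype_card]

end

theorem result {P L P' L' : Type*} [Membership P L] [Membership P' L'] [ProjectivePlane P L]
    [ProjectivePlane P' L'] [Finite P] [Finite L] [Finite P'] [Finite L'] (φ : P ≃ P')
    (hs : (lost L L' φ : ℝ) ≤
      ProjectivePlane.order P L * (√(ProjectivePlane.order P L : ℝ) - 1)) :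
    ∃ (ψ : P ≃ P') (τ : L ≃ L'), (∀ (p : P) (l : L), p ∈ l ↔ ψ p ∈ τ l) ∧
      ProjectivePlane.order P L * Nat.card {p : P // ψ p ≠ φ p} ≤ 2 * lost L L' φ := by
  classical
  have : Fintype P := Fintype.ofFinite P
  have : Fintype P' := Fintype.ofFinite P'
  have : Fintype L := Fintype.ofFinite L
  have : Fintype L' := Fintype.ofFinite L'
  set q := ProjectivePlane.order P L with hq
  have hqq : ProjectivePlane.order P' L' = q := by
    have h1 := ProjectivePlane.card_points P L
    have h2 := ProjectivePlane.card_points P' L'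
    rw [Fintype.card_congr φ, h2] at h1
    rw [← hq] at h1
    nlinarith
  have h1 : Pl (univ.image (fl (Equiv.refl P) (L' := L))) q := plane (Equiv.refl P)
  have h2 : Pl (univ.image (fl φ (L' := L'))) q := hqq ▸ plane φ
  have h3 : #(univ.image (fl (Equiv.refl P) (L' := L)) \ univ.image (fl φ (L' := L'))) =
      lost L L' φ := by
    have h4 : univ.image (fl (Equiv.refl P) (L' := L)) \ univ.image (fl φ (L' := L')) =
        (({l | ∀ l' : L', ¬ ∀ p : P, p ∈ l ↔ φ p ∈ l'} : Finset L)).image
          (fl (Equiv.refl P)) := by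
      ext m
      simp only [mem_sdiff, mem_image, mem_univ, true_and, mem_filter]
      constructor
      · rintro ⟨⟨l, rfl⟩, h5⟩
        refine ⟨l, fun l' h6 => h5 ⟨l', ?_⟩, rfl⟩
        ext p
        rw [mem_fl, mem_fl, ← h6 p]
        rfl
      · rintro ⟨l, h5, rfl⟩
        refine ⟨⟨l, rfl⟩, ?_⟩
        rintro ⟨l', h6⟩
        refine h5 l' fun p => ?_
        have h7 : p ∈ fl (Equiv.refl P) l ↔ p ∈ fl φ l' := by rw [h6]
        rw [mem_fl, mem_fl] at h7
        exact h7
    rw [h4, card_image_of_injective _ (fl_inj _), lost, Nat.card_eq_fintype_card,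
      Fintype.card_subtype]
  have hfew : Few q #(univ.image (fl (Equiv.refl P) (L' := L)) \ univ.image (fl φ (L' := L'))) := by
    rw [h3, Few]
    have : (q : ℝ) * √q - q = q * (√q - 1) := by ring
    rw [this]
    exact hs
  obtain ⟨ρ, hρ1, hρ2⟩ := main h1 h2 hfew
  have h4 : ∀ l : L, ∃ l' : L', ∀ p : P, p ∈ l ↔ φ (ρ p) ∈ l' := by
    intro l
    have h5 := hρ1 (fl (Equiv.refl P) l) (mem_image_of_mem _ (mem_univ l))
    rw [mem_image] at h5
    obtain ⟨l', -, h6⟩ := h5
    refine ⟨l', fun p => ?_⟩
    rw [← mem_fl φ l' (ρ p), h6, mem_image]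
    constructor
    · intro h7
      exact ⟨p, (mem_fl _ l p).2 h7, rfl⟩
    · rintro ⟨p', h7, h8⟩
      rw [mem_fl] at h7
      rw [← ρ.injective h8]
      exact h7
  choose τ hτ using h4
  have hτi : Function.Injective τ := by
    intro l m h
    apply fl_inj (Equiv.refl P) (L' := L)
    ext p
    rw [mem_fl, mem_fl]
    have h5 := hτ l p
    have h6 := hτ m p
    rw [h] at h5
    exact h5.trans h6.symm
  have hτb : Function.Bijective τ := by
    rw [Fintype.bijective_iff_injective_and_card]
    refine ⟨hτi, ?_⟩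
    rw [ProjectivePlane.card_lines P L, ProjectivePlane.card_lines P' L', hqq]
  refine ⟨ρ.trans φ, Equiv.ofBijective τ hτb, fun p l => hτ l p, ?_⟩
  rw [h3] at hρ2
  refine le_trans (Nat.mul_le_mul le_rfl (le_of_eq ?_)) hρ2
  rw [Nat.card_eq_fintype_card, Fintype.card_subtype]
  congr 1
  ext p
  simp only [mem_filter, mem_univ, true_and, Equiv.trans_apply, ne_eq, φ.injective.eq_iff]

end Pool.Agent.Results.MP_595dad_co.AlmostCollineations
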