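import Pool.Agent.Lib.MP_595dad_co.NR.Main

/-!
Problem MP_595dad_co: two projective planes with a large common part.

If two finite projective planes of order `q` have all but at most `q ^ (3 / 2) / 1000` points and all but at
most `q ^ (3 / 2) / 1000` lines in common (with the same incidences), then they are isomorphic, and the
isomorphism extends the given identification at all points (lines) of the common part at least half of
whose lines (points) are in the common part.
-/

set_option autoImplicit false

open Configuration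

namespace Pool.Agent.Results.MP_595dad_co.CommonPart

open Pool.Agent.Lib.MP595dad.NR

universe u

theorem result {P L P' L' : Type u} [Membership P L] [Membership P' L'] [ProjectivePlane P L]
    [ProjectivePlane P' L'] [Finite P] [Finite L] [Finite P'] [Finite L']
    (hq : ProjectivePlane.order P' L' = ProjectivePlane.order P L)
    (B : Set P) (D : Set L) (φ : P → P') (lam : L → L') (hφ : Set.InjOn φ Bᶜ)
    (hlam : Set.InjOn lam Dᶜ) (h : ∀ p ∉ B, ∀ l ∉ D, (p ∈ l ↔ φ p ∈ lam l))
    (hB : 1000 * (B.ncard : ℝ) ≤
      (ProjectivePlane.order P L : ℝ) * √(ProjectivePlane.order P L : ℝ))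
    (hD : 1000 * (D.ncard : ℝ) ≤
      (ProjectivePlane.order P L : ℝ) * √(ProjectivePlane.order P L : ℝ)) :
    ∃ (ψ : P ≃ P') (τ : L ≃ L'), (∀ (p : P) (l : L), p ∈ l ↔ ψ p ∈ τ l) ∧
      (∀ p ∉ B, 2 * {l : L | l ∈ D ∧ p ∈ l}.ncard ≤ ProjectivePlane.order P L + 1 → ψ p = φ p) ∧
      ∀ l ∉ D, 2 * {p : P | p ∈ B ∧ p ∈ l}.ncard ≤ ProjectivePlane.order P L + 1 →
        τ l = lam l := by
  classical
  have : Fintype P := Fintype.ofFinite P
  have : Fintype P' := Fintype.ofFinite P'
  have : Fintype L := Fintype.ofFinite L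
  have : Fintype L' := Fintype.ofFinite L'
  set q := ProjectivePlane.order P L with hq'
  have hcard : Fintype.card P = Fintype.card P' := by
    rw [ProjectivePlane.card_points P L, ProjectivePlane.card_points P' L', hq]
  -- extend `φ` to a bijection
  obtain ⟨g, hg⟩ : ∃ g : P ≃ P', ∀ p ∉ B, g p = φ p := by
    have h1 : ∃ g : P ≃ P', ∀ p ∈ (Finset.univ.filter fun p => p ∉ B), g p = φ p := by
      have h2 : Set.InjOn φ (Finset.univ.filter fun p => p ∉ B : Finset P) := by
        intro x hx y hy hxy
        simp only [Finset.coe_filter, Finset.mem_univ, true_and, Set.mem_ofPred_eq] at hx hy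
        exact hφ hx hy hxy
      obtain ⟨g, hg⟩ := Finset.exists_equiv_extend_of_card_eq (t := (Finset.univ : Finset P'))
        (by simpa using hcard) (s := Finset.univ.filter fun p => p ∉ B) (f := φ)
        (by simp) h2
      refine ⟨g.trans (Equiv.subtypeUnivEquiv (by simp)), fun p hp => ?_⟩
      simpa using hg p hp
    obtain ⟨g, hg⟩ := h1
    exact ⟨g, fun p hp => hg p (by simpa using hp)⟩
  have hI : Pln (fun (p : P) (l : L) => p ∈ l) q := pln_of_projectivePlane P L
  have hJ : Pln (fun (p : P) (l : L') => g p ∈ l) q := by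
    have h1 := (pln_of_projectivePlane P' L').pull g
    rw [hq] at h1
    exact h1
  obtain ⟨g', τ, h1, h2, h3⟩ := mainCP P L L' _ _ q hI hJ lam B.toFinset Dᶜ.toFinset (by
      intro l hl m hm hlm
      rw [Set.mem_toFinset] at hl hm
      exact hlam hl hm hlm) (by
      intro x hx l hl
      rw [Set.mem_toFinset] at hx hl
      rw [hg x hx]
      exact h x hx l hl) (by
      rw [← Set.ncard_eq_toFinset_card']
      exact hB) (by
      have h4 : ({l : L | l ∉ Dᶜ.toFinset} : Finset L) = D.toFinset := by
        ext l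
        simp
      rw [h4, ← Set.ncard_eq_toFinset_card']
      exact hD)
  have h4 : ∀ x, rr (fun (p : P) (l : L) => p ∈ l) {l : L | l ∉ Dᶜ.toFinset} x =
      {l : L | l ∈ D ∧ x ∈ l}.ncard := by
    intro x
    rw [rr, Set.ncard_eq_toFinset_card']
    congr 1
    ext l
    simp
  have h5 : ∀ l, ss (fun (p : P) (l : L) => p ∈ l) B.toFinset l =
      {p : P | p ∈ B ∧ p ∈ l}.ncard := by
    intro l
    rw [ss, Set.ncard_eq_toFinset_card']
    congr 1
    ext p
    simp
  refine ⟨g'.trans g, τ, fun p l => h1 p l, ?_, ?_⟩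
  · intro p hp hp2
    have h6 := h2 p (by rw [Set.mem_toFinset]; exact hp) (by rw [h4 p]; exact hp2)
    rw [Equiv.trans_apply, h6, hg p hp]
  · intro l hl hl2
    exact h3 l (by rw [Set.mem_toFinset]; exact hl) (by rw [h5 l]; exact hl2)

end Pool.Agent.Results.MP_595dad_co.CommonPart
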