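import Pool.Agent.Lib.MP_595dad_co.NR.Main

/-!
Problem MP_595dad_co: the Desargues gap.

Let `V` be a point and `a` a line of a finite projective plane of order `q ≥ 3`. If at most `q ^ 6 / 2000` of
the (about `q ^ 7`) Desargues configurations with centre `V` and axis `a` fail, then none of them fails and the
plane has all `(V, a)`-collineations: for all points `A, A'` (not `V`, not on `a`) on a line through `V` there is a
collineation which fixes all lines through `V` and all points of `a` and maps `A` to `A'`. So a plane without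
nontrivial collineations has more than `q ^ 6 / 2000` failing configurations for every `V` and `a`.
-/

set_option autoImplicit false

open Configuration

namespace Pool.Agent.Results.MP_595dad_co.DesarguesGap

open Pool.Agent.Lib.MP595dad.NR

universe u

/-- `x` is neither the centre `V` nor on the axis `a`. -/
def Regular {P L : Type u} [Membership P L] (V : P) (a : L) (x : P) : Prop :=
  x ≠ V ∧ x ∉ a

/-- The points `x`, `y`, `z` are on a common line. -/
def Coll {P : Type u} (L : Type u) [Membership P L] (x y z : P) : Prop :=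
  ∃ l : L, x ∈ l ∧ y ∈ l ∧ z ∈ l

/-- The lines `x y` and `x' y'` meet in a point of `a`. -/
def MeetOn {P L : Type u} [Membership P L] (a : L) (x y x' y' : P) : Prop :=
  ∃ X : P, X ∈ a ∧ Coll L x y X ∧ Coll L x' y' X

/-- A failing Desargues configuration with centre `V` and axis `a`: the triangles `A B C` and `A' B' C'` (none
of the points is `V` or on `a`) are in perspective from `V` (corresponding vertices on three different lines
through `V`), the sides `A B` and `A' B'` meet on `a`, the sides `A C` and `A' C'` meet on `a`, but the sides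
`B C` and `B' C'` do not meet on `a`. -/
structure Fails {P L : Type u} [Membership P L] (V : P) (a : L) (A A' B B' C C' : P) : Prop where
  regA : Regular V a A
  regA' : Regular V a A'
  regB : Regular V a B
  regB' : Regular V a B'
  regC : Regular V a C
  regC' : Regular V a C'
  lineA : Coll L V A A'
  lineB : Coll L V B B'
  lineC : Coll L V C C'
  neAB : ¬ Coll L V A B
  neAC : ¬ Coll L V A C
  neBC : ¬ Coll L V B C
  meetAB : MeetOn a A B A' B'
  meetAC : MeetOn a A C A' C'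
  notBC : ¬ MeetOn a B C B' C'

/-- The number of failing Desargues configurations with centre `V` and axis `a`. -/
noncomputable def failing {P L : Type u} [Membership P L] (V : P) (a : L) : ℕ :=
  Nat.card {t : Fin 6 → P // Fails V a (t 0) (t 1) (t 2) (t 3) (t 4) (t 5)}

private lemma per_iff {P L : Type u} [Membership P L] (a : L) (x y x' y' : P) :
    MeetOn a x y x' y' ↔ Per (fun (p : P) (l : L) => p ∈ l) a x y x' y' := by
  constructor
  · rintro ⟨X, h1, ⟨m, h2, h3, h4⟩, ⟨m', h5, h6, h7⟩⟩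
    exact ⟨X, m, m', h1, h2, h3, h4, h5, h6, h7⟩
  · rintro ⟨X, m, m', h1, h2, h3, h4, h5, h6, h7⟩
    exact ⟨X, h1, ⟨m, h2, h3, h4⟩, ⟨m', h5, h6, h7⟩⟩

section

open scoped Classical

variable {P L : Type u} [Membership P L] [Fintype P] [Fintype L]

private lemma dq_le (V : P) (a : L)
    (hex : ∀ A A' B : P, Reg (fun (p : P) (l : L) => p ∈ l) V a A →
      Reg (fun (p : P) (l : L) => p ∈ l) V a A' → Reg (fun (p : P) (l : L) => p ∈ l) V a B →
      Col (fun (p : P) (l : L) => p ∈ l) V A A' → ¬ Col (fun (p : P) (l : L) => p ∈ l) V A B →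
      Tr (fun (p : P) (l : L) => p ∈ l) V a A A' B
        (pm (fun (p : P) (l : L) => p ∈ l) V a A A' B)) :
    DQ (fun (p : P) (l : L) => p ∈ l) V a ≤ failing V a := by
  rw [DQ, failing, ← Fintype.card_subtype, ← Nat.card_eq_fintype_card]
  refine Nat.card_le_card_of_injective (fun t => ⟨![t.1.1, t.1.2.1, t.1.2.2.1,
    pm (fun (p : P) (l : L) => p ∈ l) V a t.1.1 t.1.2.1 t.1.2.2.1, t.1.2.2.2,
    pm (fun (p : P) (l : L) => p ∈ l) V a t.1.1 t.1.2.1 t.1.2.2.2], ?_⟩) ?_
  · obtain ⟨⟨A, A', B, C⟩, h1, h2, h3, h4, h5, h6, h7, h8, h9⟩ := t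
    have hb := hex A A' B h1 h2 h3 h5 h6
    have hc := hex A A' C h1 h2 h4 h5 h7
    obtain ⟨-, -, -, b4, -, b6, -, b8⟩ := hb
    obtain ⟨-, -, -, c4, -, c6, -, c8⟩ := hc
    exact ⟨h1, h2, h3, b4, h4, c4, h5, b6, c6, h6, h7, h8, (per_iff _ _ _ _ _).2 b8,
      (per_iff _ _ _ _ _).2 c8, fun h => h9 ((per_iff _ _ _ _ _).1 h)⟩
  · rintro ⟨⟨A, A', B, C⟩, h⟩ ⟨⟨A₁, A₁', B₁, C₁⟩, h'⟩ heq
    have h1 := congrArg Subtype.val heq
    have e0 := congrFun h1 0
    have e1 := congrFun h1 1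
    have e2 := congrFun h1 2
    have e4 := congrFun h1 4
    simp only [Matrix.cons_val] at e0 e1 e2 e4
    subst e0 e1 e2 e4
    rfl

private lemma cen_V {q : ℕ} (hI : Pln (fun (p : P) (l : L) => p ∈ l) q) {V : P} {a : L} {ψ : P ≃ P}
    {τ : L ≃ L} (h : Cen (fun (p : P) (l : L) => p ∈ l) V a ψ τ) : ψ V = V := by
  have h1 : 1 < Finset.card (Finset.univ.filter fun l : L => V ∈ l) := by
    have h2 := hI.deg V
    have h3 := hI.two
    omega
  obtain ⟨l, hl, m, hm, hlm⟩ := Finset.one_lt_card.1 h1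
  simp only [Finset.mem_filter, Finset.mem_univ, true_and] at hl hm
  have h2 : ψ V ∈ l := by
    have := (h.1 V l).1 hl
    rwa [h.2.1 l hl] at this
  have h3 : ψ V ∈ m := by
    have := (h.1 V m).1 hm
    rwa [h.2.1 m hm] at this
  exact hI.point_eq hlm h2 hl h3 hm

private lemma cen_tr {q : ℕ} (hI : Pln (fun (p : P) (l : L) => p ∈ l) q) {V : P} {a : L}
    {ψ : P ≃ P} {τ : L ≃ L} (h : Cen (fun (p : P) (l : L) => p ∈ l) V a ψ τ) {A B B' : P}
    (ht : Tr (fun (p : P) (l : L) => p ∈ l) V a A (ψ A) B B') :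
    Tr (fun (p : P) (l : L) => p ∈ l) V a A (ψ A) B (ψ B) := by
  have hV := cen_V hI h
  obtain ⟨h1, h2, h3, h4, h5, ⟨k, k1, k2, k3⟩, h7, ⟨X, m, m', m1, m2, m3, m4, m5, m6, m7⟩⟩ := ht
  refine ⟨h1, h2, h3, ⟨fun h8 => ?_, fun h8 => ?_⟩, h5, ⟨k, k1, k2, ?_⟩, h7,
    ⟨X, m, τ m, m1, m2, m3, m4, (h.1 A m).1 m2, (h.1 B m).1 m3, ?_⟩⟩
  · exact h3.1 (ψ.injective (h8.trans hV.symm))
  · have h9 := ψ.injective (h.2.2 (ψ B) h8)
    rw [h9] at h8
    exact h3.2 h8
  · have := (h.1 B k).1 k2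
    rwa [h.2.1 k k1] at this
  · have := (h.1 X m).1 m4
    rwa [h.2.2 X m1] at this

end

theorem result {P L : Type u} [Membership P L] [ProjectivePlane P L] [Finite P] [Finite L]
    (hq : 3 ≤ ProjectivePlane.order P L) (V : P) (a : L)
    (h : 2000 * failing V a ≤ ProjectivePlane.order P L ^ 6) :
    failing V a = 0 ∧
      ∀ A A' : P, Regular V a A → Regular V a A' → Coll L V A A' →
        ∃ (ψ : P ≃ P) (τ : L ≃ L), (∀ (p : P) (l : L), p ∈ l ↔ ψ p ∈ τ l) ∧
          (∀ l : L, V ∈ l → τ l = l) ∧ (∀ p : P, p ∈ a → ψ p = p) ∧ ψ A = A' := by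
  classical
  have : Fintype P := Fintype.ofFinite P
  have : Fintype L := Fintype.ofFinite L
  set q := ProjectivePlane.order P L with hq'
  have hI : Pln (fun (p : P) (l : L) => p ∈ l) q := pln_of_projectivePlane P L
  obtain ⟨p1, p2, p3⟩ := mainPEX P L _ q hI V a
  have h1 := dq_le V a p1
  have h2 : 2000 * DQ (fun (p : P) (l : L) => p ∈ l) V a ≤ q ^ 6 := by
    refine le_trans ?_ h
    exact Nat.mul_le_mul le_rfl h1
  have h3 : ∀ A A' : P, Regular V a A → Regular V a A' → Coll L V A A' →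
      ∃ (ψ : P ≃ P) (τ : L ≃ L), Cen (fun (p : P) (l : L) => p ∈ l) V a ψ τ ∧ ψ A = A' := by
    intro A A' hA hA' hc
    exact mainDG P L _ q hI hq V a h2 A A' hA hA' hc
  refine ⟨?_, ?_⟩
  · rw [failing, Nat.card_eq_zero]
    left
    refine ⟨?_⟩
    rintro ⟨t, ht⟩
    obtain ⟨ψ, τ, hc, hA⟩ := h3 (t 0) (t 1) ht.regA ht.regA' ht.lineA
    have hb : Tr (fun (p : P) (l : L) => p ∈ l) V a (t 0) (t 1) (t 2) (t 3) :=
      ⟨ht.regA, ht.regA', ht.regB, ht.regB', ht.lineA, ht.lineB, ht.neAB,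
        (per_iff _ _ _ _ _).1 ht.meetAB⟩
    have hcc : Tr (fun (p : P) (l : L) => p ∈ l) V a (t 0) (t 1) (t 4) (t 5) :=
      ⟨ht.regA, ht.regA', ht.regC, ht.regC', ht.lineA, ht.lineC, ht.neAC,
        (per_iff _ _ _ _ _).1 ht.meetAC⟩
    rw [← hA] at hb hcc
    have e1 := p2 _ _ _ _ _ (cen_tr hI hc hb) hb
    have e2 := p2 _ _ _ _ _ (cen_tr hI hc hcc) hcc
    -- the line `B C`
    have hne : t 2 ≠ t 4 := by
      intro h4
      refine ht.neBC ?_
      rw [← h4]
      obtain ⟨k, k1, k2, -⟩ := ht.lineB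
      exact ⟨k, k1, k2, k2⟩
    obtain ⟨m, m1, m2⟩ := hI.join (t 2) (t 4) hne
    have hma : m ≠ a := by
      intro h4
      rw [h4] at m1
      exact ht.regB.2 m1
    obtain ⟨X, X1, X2⟩ := hI.meet m a hma
    refine ht.notBC ⟨X, X2, ⟨m, m1, m2, X1⟩, ⟨τ m, ?_, ?_, ?_⟩⟩
    · rw [← e1]
      exact (hc.1 _ m).1 m1
    · rw [← e2]
      exact (hc.1 _ m).1 m2
    · have h4 := (hc.1 X m).1 X1
      rwa [hc.2.2 X X2] at h4
  · intro A A' hA hA' hc
    obtain ⟨ψ, τ, h4, h5⟩ := h3 A A' hA hA' hc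
    exact ⟨ψ, τ, h4.1, h4.2.1, h4.2.2, h5⟩

end Pool.Agent.Results.MP_595dad_co.DesarguesGap
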