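import Pool.Agent.Lib.MP_595dad_co.NR.Main

/-!
Problem MP_595dad_co: near isomorphisms of finite projective planes.

Let `φ` be a bijection between the points of two finite projective planes of order `q` and `lam` any map
of the lines. If at most `(q ^ 2 + q + 1) / 32` flags are lost (`p ∈ l` but `φ p ∉ lam l`), or if at most
`q ^ (5 / 2) / 10 ^ 5` flags are lost and at least `10 ^ 4 q ^ (3 / 2)` lines are exact, then the planes are
isomorphic, by an isomorphism which agrees with `φ` at all but at most `10 / (q + 1)` times the number of
lost flags points.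
-/

set_option autoImplicit false

open Configuration Finset

namespace Pool.Agent.Results.MP_595dad_co.NearIsomorphisms

open Pool.Agent.Lib.MP595dad.NR

universe u

/-- The number of lost flags: the pairs of a point `p` and a line `l` through `p` such that `φ p` is not on
the line `lam l`. -/
noncomputable def lostFlags {P L P' L' : Type u} [Membership P L] [Membership P' L'] (φ : P → P')
    (lam : L → L') : ℕ :=
  Nat.card {t : P × L // t.1 ∈ t.2 ∧ φ t.1 ∉ lam t.2}

/-- The number of exact lines: `φ` maps the points of `l` to the points of `lam l` and no other point to a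
point of `lam l`. -/
noncomputable def exactLines {P L P' L' : Type u} [Membership P L] [Membership P' L'] (φ : P → P')
    (lam : L → L') : ℕ :=
  Nat.card {l : L // ∀ p : P, p ∈ l ↔ φ p ∈ lam l}

theorem result {P L P' L' : Type u} [Membership P L] [Membership P' L'] [ProjectivePlane P L]
    [ProjectivePlane P' L'] [Finite P] [Finite L] [Finite P'] [Finite L'] (φ : P ≃ P')
    (lam : L → L')
    (h : 32 * lostFlags φ lam ≤ Nat.card P ∨
      (10 ^ 5 * (lostFlags φ lam : ℝ) ≤
          (ProjectivePlane.order P L : ℝ) ^ 2 * √(ProjectivePlane.order P L : ℝ) ∧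
        10 ^ 4 * ((ProjectivePlane.order P L : ℝ) * √(ProjectivePlane.order P L : ℝ)) ≤
          exactLines φ lam)) :
    ∃ (ψ : P ≃ P') (τ : L ≃ L'), (∀ (p : P) (l : L), p ∈ l ↔ ψ p ∈ τ l) ∧
      (ProjectivePlane.order P L + 1) * Nat.card {p : P // ψ p ≠ φ p} ≤
        10 * lostFlags φ lam := by
  classical
  have : Fintype P := Fintype.ofFinite P
  have : Fintype P' := Fintype.ofFinite P'
  have : Fintype L := Fintype.ofFinite L
  have : Fintype L' := Fintype.ofFinite L'
  set q := ProjectivePlane.order P L with hq
  have hqq : ProjectivePlane.order P' L' = q := by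
    have h1 := ProjectivePlane.card_points P L
    have h2 := ProjectivePlane.card_points P' L'
    rw [Fintype.card_congr φ, h2] at h1
    rw [← hq] at h1
    nlinarith
  have hI : Pln (fun (p : P) (l : L) => p ∈ l) q := pln_of_projectivePlane P L
  have hJ : Pln (fun (p : P) (l : L') => φ p ∈ l) q := by
    have h1 := (pln_of_projectivePlane P' L').pull φ
    rw [hqq] at h1
    exact h1
  have hF : FF (fun (p : P) (l : L) => p ∈ l) (fun (p : P) (l : L') => φ p ∈ l) lam =
      lostFlags φ lam := by
    rw [FF_eq_card]
    rfl
  have hE : #{l : L | dd (fun (p : P) (l : L) => p ∈ l) (fun (p : P) (l : L') => φ p ∈ l) lam l = 0}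
      = exactLines φ lam := by
    rw [exactLines, Nat.card_eq_fintype_card, Fintype.card_subtype]
    congr 1
    ext l
    simp only [mem_filter, mem_univ, true_and]
    constructor
    · intro h1 p
      constructor
      · intro h2
        by_contra h3
        rw [dd, card_eq_zero] at h1
        have h4 : p ∈ ({x : P | x ∈ l ∧ ¬ φ x ∈ lam l} : Finset P) := by
          simp only [mem_filter, mem_univ, true_and]
          exact ⟨h2, h3⟩
        rw [filter_eq_empty_iff] at h1
        exact h1 (mem_univ p) ⟨h2, h3⟩
      · intro h2
        by_contra h3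
        have h4 := hI.split' hJ lam l
        rw [h1, card_eq_zero, filter_eq_empty_iff] at h4
        exact h4 (mem_univ p) ⟨h2, h3⟩
    · intro h1
      rw [dd, card_eq_zero, filter_eq_empty_iff]
      rintro p - ⟨h2, h3⟩
      exact h3 ((h1 p).1 h2)
  have hcard : Nat.card P = q ^ 2 + q + 1 := by
    rw [Nat.card_eq_fintype_card]
    exact ProjectivePlane.card_points P L
  obtain ⟨g, τ, h1, h2⟩ := mainNR P L L' _ _ q hI hJ lam (by
    rw [hF, hE, ← hcard]
    exact h)
  refine ⟨g.trans φ, τ, fun p l => h1 p l, ?_⟩
  rw [hF] at h2
  refine le_trans (Nat.mul_le_mul le_rfl (le_of_eq ?_)) h2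
  rw [Nat.card_eq_fintype_card, Fintype.card_subtype]
  congr 1
  ext p
  simp only [mem_filter, mem_univ, true_and, Equiv.trans_apply, ne_eq, φ.injective.eq_iff]

end Pool.Agent.Results.MP_595dad_co.NearIsomorphisms
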